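import Mathlib
import Pool.Agent.Lib.MP_81590e_gt.Graph
import Pool.Agent.Lib.MP_81590e_gt.SurfaceDefs

/-!
# MP_81590e_gt, Q1: every `C^1`-smooth torse is a surface of class BECP

A `C^1` surface is a `C^1` immersion `F : M → ℝ³` of a 2-manifold `M`; points of the surface are
points of `M`.  All definitions are in `Pool.Agent.Lib.MP_81590e_gt.SurfaceDefs`.
-/

namespace Pool.Agent.Results.MP_81590e_gt.TorseBECP

open MeasureTheory Set Filter Topology
open scoped Manifold ContDiff RealInnerProductSpace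
open Pool.Agent.Lib.MP_81590e_gt

variable {M : Type*} [TopologicalSpace M] [ChartedSpace (EuclideanSpace ℝ (Fin 2)) M]

variable [IsManifold (𝓡 2) 1 M]

lemma chart_facts {F : M → EuclideanSpace ℝ (Fin 3)} (hF : IsC1Immersion (𝓡 2) F) (p₀ : M) :
    ContDiffOn ℝ 1 (F ∘ (extChartAt (𝓡 2) p₀).symm) (extChartAt (𝓡 2) p₀).target ∧
    ∀ q ∈ (extChartAt (𝓡 2) p₀).source,
      (∀ w, w ∈ tangentPlane (𝓡 2) F q ↔
        ∃ z, fderiv ℝ (F ∘ (extChartAt (𝓡 2) p₀).symm) (extChartAt (𝓡 2) p₀ q) z = w) ∧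
      Function.Injective
        (fderiv ℝ (F ∘ (extChartAt (𝓡 2) p₀).symm) (extChartAt (𝓡 2) p₀ q)) := by
  set φ := extChartAt (𝓡 2) p₀ with hφ
  have h1 : ContDiffOn ℝ 1 (F ∘ φ.symm) φ.target := by
    rw [← contMDiffOn_iff_contDiffOn]
    exact hF.1.comp_contMDiffOn (contMDiffOn_extChartAt_symm p₀)
  refine ⟨h1, ?_⟩
  intro q hq
  have hqt : φ q ∈ φ.target := φ.map_source hq
  have hopen : IsOpen φ.target := isOpen_extChartAt_target p₀
  have hfd : DifferentiableAt ℝ (F ∘ φ.symm) (φ q) :=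
    (h1.contDiffAt (hopen.mem_nhds hqt)).differentiableAt one_ne_zero
  have hmfd : MDifferentiableAt 𝓘(ℝ, EuclideanSpace ℝ (Fin 2)) (𝓡 3) (F ∘ φ.symm) (φ q) :=
    hfd.mdifferentiableAt
  have hφd : MDifferentiableAt (𝓡 2) 𝓘(ℝ, EuclideanSpace ℝ (Fin 2)) φ q := by
    have hq' : q ∈ (chartAt (EuclideanSpace ℝ (Fin 2)) p₀).source := by
      rwa [hφ, extChartAt_source] at hq
    exact (contMDiffAt_extChartAt' hq').mdifferentiableAt one_ne_zero
  have heq : F =ᶠ[𝓝 q] (F ∘ φ.symm) ∘ φ := by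
    filter_upwards [(isOpen_extChartAt_source (I := 𝓡 2) p₀).mem_nhds hq] with q' hq'
    show F q' = F (φ.symm (φ q'))
    rw [φ.left_inv hq']
  have hcomp : mfderiv (𝓡 2) (𝓡 3) F q =
      (mfderiv 𝓘(ℝ, EuclideanSpace ℝ (Fin 2)) (𝓡 3) (F ∘ φ.symm) (φ q)).comp
        (mfderiv (𝓡 2) 𝓘(ℝ, EuclideanSpace ℝ (Fin 2)) φ q) := by
    rw [heq.mfderiv_eq, mfderiv_comp q hmfd hφd]
  rw [mfderiv_eq_fderiv] at hcomp
  obtain ⟨e, he⟩ : (mfderiv (𝓡 2) 𝓘(ℝ, EuclideanSpace ℝ (Fin 2)) φ q).IsInvertible :=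
    isInvertible_mfderiv_extChartAt hq
  have hcomp' : ∀ z : TangentSpace (𝓡 2) q, mfderiv (𝓡 2) (𝓡 3) F q z =
      fderiv ℝ (F ∘ φ.symm) (φ q) (e z) := by
    intro z
    rw [hcomp, ← he]
    rfl
  have hinv : ∀ z : EuclideanSpace ℝ (Fin 2),
      mfderiv (𝓡 2) (𝓡 3) F q (e.symm z) = fderiv ℝ (F ∘ φ.symm) (φ q) z := by
    intro z
    have h3 : e (e.symm z) = z := e.apply_symm_apply z
    exact (hcomp' (e.symm z)).trans (congrArg (fderiv ℝ (F ∘ φ.symm) (φ q)) h3)
  refine ⟨?_, ?_⟩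
  · intro w
    constructor
    · rintro ⟨z, hz⟩
      exact ⟨e z, by rw [← hcomp' z]; exact hz⟩
    · rintro ⟨z, hz⟩
      exact ⟨e.symm z, (hinv z).trans hz⟩
  · intro z z' hzz
    have h2 : mfderiv (𝓡 2) (𝓡 3) F q (e.symm z) = mfderiv (𝓡 2) (𝓡 3) F q (e.symm z') :=
      (hinv z).trans (Eq.trans hzz (hinv z').symm)
    exact e.symm.injective (hF.2 q h2)

/-- The local statement: every point of a torse has an open neighbourhood carrying a continuous
unit normal and on which the spherical image has area zero. -/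
lemma local_null {F : M → EuclideanSpace ℝ (Fin 3)} (hF : IsC1Immersion (𝓡 2) F) (hT : IsTorse (𝓡 2) F)
    (p₀ : M) : ∃ G : Set M, IsOpen G ∧ p₀ ∈ G ∧ (∃ n, IsUnitNormal (𝓡 2) F G n) ∧
      ∀ n, IsUnitNormal (𝓡 2) F G n → area (n '' G) = 0 := by
  obtain ⟨hf, hq⟩ := chart_facts hF p₀
  set φ := extChartAt (𝓡 2) p₀ with hφ
  set f : EuclideanSpace ℝ (Fin 2) → EuclideanSpace ℝ (Fin 3) := F ∘ φ.symm with hfdef
  have hp₀ : p₀ ∈ φ.source := mem_extChartAt_source p₀
  obtain ⟨L⟩ := exists_localGraph (isOpen_extChartAt_target p₀) hf (φ.map_source hp₀)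
    (hq p₀ hp₀).2
  obtain ⟨ρ, n₀, h, D, a, b, hn₀, hρn₀, hsep, hcoe, hx₀s, hD, hDt, hx₀D, hDΩ, hgrad, htan⟩ := L
  -- the neighbourhood
  let G : Set M := φ.source ∩ φ ⁻¹' (h.source ∩ h ⁻¹' D)
  have hGo : IsOpen G :=
    (continuousOn_extChartAt p₀).isOpen_inter_preimage (isOpen_extChartAt_source p₀)
      (h.isOpen_inter_preimage hD)
  have hGp : p₀ ∈ G := ⟨hp₀, hx₀s, hx₀D⟩
  have hFf : ∀ q ∈ φ.source, f (φ q) = F q := by
    intro q hq
    show F (φ.symm (φ q)) = F q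
    rw [φ.left_inv hq]
  -- the coordinate of a point of `G`
  have hy : ∀ q ∈ G, ρ (F q) ∈ D ∧ h.symm (ρ (F q)) = φ q := by
    intro q hqG
    have h1 : h (φ q) = ρ (F q) := by rw [hcoe, hFf q hqG.1]
    refine ⟨?_, ?_⟩
    · rw [← h1]; exact hqG.2.2
    · rw [← h1]; exact h.left_inv hqG.2.1
  have htan' : ∀ q ∈ G, ∀ w, w ∈ tangentPlane (𝓡 2) F q ↔
      ⟪n₀, w⟫ = a (ρ (F q)) * (ρ w).1 + b (ρ (F q)) * (ρ w).2 := by
    intro q hqG w
    rw [(hq q hqG.1).1 w, ← htan _ (hy q hqG).1 w, (hy q hqG).2]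
  -- representing vectors
  let r₁ : EuclideanSpace ℝ (Fin 3) := (InnerProductSpace.toDual ℝ _).symm
    ((ContinuousLinearMap.fst ℝ ℝ ℝ).comp ρ)
  let r₂ : EuclideanSpace ℝ (Fin 3) := (InnerProductSpace.toDual ℝ _).symm
    ((ContinuousLinearMap.snd ℝ ℝ ℝ).comp ρ)
  have hr₁ : ∀ w, ⟪r₁, w⟫ = (ρ w).1 := fun w => by
    rw [InnerProductSpace.toDual_symm_apply]; rfl
  have hr₂ : ∀ w, ⟪r₂, w⟫ = (ρ w).2 := fun w => by
    rw [InnerProductSpace.toDual_symm_apply]; rfl
  let N : ℝ × ℝ → EuclideanSpace ℝ (Fin 3) := fun y => n₀ - a y • r₁ - b y • r₂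
  have hN : ∀ y w, ⟪N y, w⟫ = ⟪n₀, w⟫ - a y * (ρ w).1 - b y * (ρ w).2 := by
    intro y w
    simp only [N, inner_sub_left, inner_smul_left, hr₁, hr₂]
    simp
  have hNne : ∀ y, N y ≠ 0 := by
    intro y h0
    have h1 := hN y n₀
    rw [h0, inner_zero_left, hρn₀] at h1
    simp only [Prod.fst_zero, Prod.snd_zero, mul_zero, sub_zero] at h1
    exact hn₀ (inner_self_eq_zero.mp h1.symm)
  have htan'' : ∀ q ∈ G, ∀ w, w ∈ tangentPlane (𝓡 2) F q ↔ ⟪N (ρ (F q)), w⟫ = 0 := by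
    intro q hqG w
    rw [htan' q hqG w, hN]
    constructor
    · intro h1; rw [h1]; ring
    · intro h1; linarith
  -- normals are multiples of `N`
  have hnormal : ∀ n, IsUnitNormal (𝓡 2) F G n → ∀ q ∈ G, ∃ t : ℝ, n q = t • N (ρ (F q)) := by
    intro n hn q hqG
    have h1 : n q ∈ (ℝ ∙ N (ρ (F q)))ᗮᗮ := by
      rw [Submodule.mem_orthogonal]
      intro w hw
      rw [Submodule.mem_orthogonal_singleton_iff_inner_right] at hw
      rw [real_inner_comm]
      exact (hn.2 q hqG).2 w ((htan'' q hqG w).mpr hw)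
    rw [Submodule.orthogonal_orthogonal, Submodule.mem_span_singleton] at h1
    obtain ⟨t, ht⟩ := h1
    exact ⟨t, ht.symm⟩
  -- the constancy of the gradient along segments
  have hseg : ∀ z ∈ D, ∃ e : ℝ × ℝ, e ≠ 0 ∧ ∃ ε > 0, ∀ s : ℝ, |s| < ε →
      z + s • e ∈ D ∧ a (z + s • e) = a z ∧ b (z + s • e) = b z := by
    intro z hz
    set x := h.symm z with hx
    set q := φ.symm x with hqdef
    have hxt : x ∈ φ.target := hDΩ z hz
    have hqs : q ∈ φ.source := φ.map_target hxt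
    have hφq : φ q = x := φ.right_inv hxt
    have hhx : h x = z := h.right_inv (hDt hz)
    have hqG : q ∈ G := by
      refine ⟨hqs, ?_, ?_⟩
      · rw [hφq]; exact h.map_target (hDt hz)
      · show h (φ q) ∈ D
        rw [hφq, hhx]; exact hz
    have hρq : ρ (F q) = z := by
      rw [← hFf q hqs, hφq, ← hcoe, hhx]
    obtain ⟨ε, γ, v, ⟨hε, hv, hγc, hγ0, hγF⟩, hγT⟩ := hT q
    have hγG : ∀ᶠ s in 𝓝 (0 : ℝ), γ s ∈ G := by
      have h1 : ContinuousAt γ 0 := hγc.continuousAt (Ioo_mem_nhds (by linarith) hε)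
      apply h1
      rw [hγ0]
      exact hGo.mem_nhds hqG
    rw [Metric.eventually_nhds_iff] at hγG
    obtain ⟨ε₁, hε₁, hγG⟩ := hγG
    have hmin : 0 < min ε ε₁ := lt_min hε hε₁
    have hin : ∀ s : ℝ, |s| < min ε ε₁ → s ∈ Ioo (-ε) ε ∧ γ s ∈ G := by
      intro s hs
      refine ⟨abs_lt.mp (hs.trans_le (min_le_left _ _)), hγG ?_⟩
      rw [Real.dist_eq, sub_zero]
      exact hs.trans_le (min_le_right _ _)
    have hρs : ∀ s : ℝ, |s| < min ε ε₁ → ρ (F (γ s)) = z + s • ρ v := by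
      intro s hs
      rw [hγF s (hin s hs).1, map_add, map_smul, hρq]
    refine ⟨ρ v, ?_, min ε ε₁, hmin, ?_⟩
    · intro h0
      set s := min ε ε₁ / 2 with hs
      have hs1 : |s| < min ε ε₁ := by rw [abs_of_pos (by positivity)]; linarith
      have h2 := (hy (γ s) (hin s hs1).2).2
      rw [hρs s hs1, h0, smul_zero, add_zero, ← hx, ← hφq] at h2
      have h3 : γ s = q := φ.injOn (hin s hs1).2.1 hqs h2.symm
      have h4 := hγF s (hin s hs1).1
      rw [h3] at h4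
      have h5 : s • v = 0 := by
        have : F q + s • v = F q + 0 := by rw [← h4, add_zero]
        exact add_left_cancel this
      rcases smul_eq_zero.mp h5 with h6 | h6
      · have : 0 < s := by positivity
        exact this.ne' h6
      · exact hv h6
    · intro s hs
      have hsG := (hin s hs).2
      have hsD := (hy (γ s) hsG).1
      rw [hρs s hs] at hsD
      refine ⟨hsD, ?_⟩
      -- equality of the tangent planes gives equality of the gradients
      have hTeq := hγT s (hin s hs).1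
      have key : ∀ w, (⟪n₀, w⟫ = a (z + s • ρ v) * (ρ w).1 + b (z + s • ρ v) * (ρ w).2 ↔
          ⟪n₀, w⟫ = a z * (ρ w).1 + b z * (ρ w).2) := by
        intro w
        have h1 := htan' (γ s) hsG w
        have h2 := htan' q hqG w
        rw [hρs s hs] at h1
        rw [hρq] at h2
        rw [← h1, ← h2, hTeq]
      -- surjectivity of `(ρ, ⟪n₀, ·⟫)`
      have hsurj : ∀ (y : ℝ × ℝ) (c : ℝ), ∃ w, ρ w = y ∧ ⟪n₀, w⟫ = c := by
        intro y c
        let T : EuclideanSpace ℝ (Fin 3) →ₗ[ℝ] (ℝ × ℝ) × ℝ :=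
          (ρ : EuclideanSpace ℝ (Fin 3) →ₗ[ℝ] ℝ × ℝ).prod
            (innerSL ℝ n₀ : EuclideanSpace ℝ (Fin 3) →ₗ[ℝ] ℝ)
        have hT1 : Function.Injective T := by
          rw [← LinearMap.ker_eq_bot, LinearMap.ker_eq_bot']
          intro w hw
          have h1 : ρ w = 0 := congrArg Prod.fst hw
          have h2 : ⟪n₀, w⟫ = 0 := congrArg Prod.snd hw
          exact hsep w h1 h2
        have hdim : Module.finrank ℝ (EuclideanSpace ℝ (Fin 3)) =
            Module.finrank ℝ ((ℝ × ℝ) × ℝ) := by simp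
        obtain ⟨w, hw⟩ :=
          (LinearMap.injective_iff_surjective_of_finrank_eq_finrank hdim).mp hT1 (y, c)
        exact ⟨w, congrArg Prod.fst hw, congrArg Prod.snd hw⟩
      constructor
      · obtain ⟨w, hw1, hw2⟩ := hsurj (1, 0) (a z)
        have h1 := (key w).mpr (by rw [hw1, hw2]; simp)
        rw [hw1, hw2] at h1
        simp only [mul_one, mul_zero, add_zero] at h1
        exact h1.symm
      · obtain ⟨w, hw1, hw2⟩ := hsurj (0, 1) (b z)
        have h1 := (key w).mpr (by rw [hw1, hw2]; simp)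
        rw [hw1, hw2] at h1
        simp only [mul_one, mul_zero, zero_add] at h1
        exact h1.symm
  have hnull := plane_null hgrad hseg
  refine ⟨G, hGo, hGp, ?_, ?_⟩
  · -- existence of the unit normal
    refine ⟨fun q => ‖N (ρ (F q))‖⁻¹ • N (ρ (F q)), ?_, ?_⟩
    · have hρF : ContinuousOn (fun q => ρ (F q)) G :=
        (ρ.continuous.comp hF.1.continuous).continuousOn
      have hNc : ContinuousOn N D :=
        (continuousOn_const.sub (hgrad.cont_a.smul continuousOn_const)).sub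
          (hgrad.cont_b.smul continuousOn_const)
      have h1 : ContinuousOn (fun q => N (ρ (F q))) G := hNc.comp hρF (fun q hqG => (hy q hqG).1)
      refine ContinuousOn.smul (ContinuousOn.inv₀ h1.norm ?_) h1
      intro q _
      exact norm_ne_zero_iff.mpr (hNne _)
    · intro q hqG
      refine ⟨?_, ?_⟩
      · rw [norm_smul, norm_inv, norm_norm, inv_mul_cancel₀ (norm_ne_zero_iff.mpr (hNne _))]
      · intro w hw
        rw [inner_smul_left, (htan'' q hqG w).mp hw, mul_zero]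
  · intro n hn
    refine sphereArea_eq_zero n₀ r₁ r₂ hD hgrad.cont_a hgrad.cont_b hnull ?_
    rintro _ ⟨q, hqG, rfl⟩
    obtain ⟨t, ht⟩ := hnormal n hn q hqG
    exact ⟨t, ρ (F q), (hy q hqG).1, ht⟩

/-- **Every `C^1`-smooth torse is a surface of class BECP.** -/
theorem result (M : Type*) [TopologicalSpace M] [T2Space M] [SecondCountableTopology M]
    [ConnectedSpace M] [ChartedSpace (EuclideanSpace ℝ (Fin 2)) M] [IsManifold (𝓡 2) 1 M]
    (F : M → EuclideanSpace ℝ (Fin 3)) (hF : IsC1Immersion (𝓡 2) F) (hT : IsTorse (𝓡 2) F) : IsBECP (𝓡 2) F := by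
  intro p
  obtain ⟨G, hGo, hpG, hex, hnull⟩ := local_null hF hT p
  refine ⟨G, hGo, hpG, hex, 0, ?_⟩
  intro n hn k H hH _
  have h0 : ∀ i, area (n '' H i) = 0 := by
    intro i
    obtain ⟨A, _, hA⟩ := hH i
    have hsub : H i ⊆ G := by rw [hA]; exact inter_subset_right
    have h1 : area (n '' H i) ≤ area (n '' G) :=
      measure_mono (preimage_mono (image_mono hsub))
    rw [hnull n hn] at h1
    exact le_antisymm h1 zero_le
  rw [Finset.sum_eq_zero (fun i _ => h0 i)]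
  exact zero_le

end Pool.Agent.Results.MP_81590e_gt.TorseBECP
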